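import Pool.Agent.Run7.h232.BG.Maps

/-!
# Baire category: deciding Borel sets on products of perfect sets
-/

set_option linter.unusedSimpArgs false
set_option linter.unusedSectionVars false

open Filter Topology Set

namespace Run7.h232.BG

variable {ι : Type*} [Finite ι]

/-- the first `n` bits -/
def rs (n : ℕ) (y : C) : Fin n → Bool := fun i => y i

theorem rs_eq {n : ℕ} {x y : C} : rs n x = rs n y ↔ Agree n x y := by
  constructor
  · intro h i hi
    exact congrFun h ⟨i, hi⟩
  · intro h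
    funext i
    exact h i.1 i.2

theorem isOpenMap_pi {k : ι → C → C} (h : ∀ a, IsOpenMap (k a)) :
    IsOpenMap (fun (y : ι → C) a => k a (y a)) :=
  IsOpenMap.piMap h (by simp [Filter.cofinite_eq_bot])

theorem continuous_pi' {k : ι → C → C} (h : ∀ a, Good (k a)) :
    Continuous (fun (y : ι → C) a => k a (y a)) :=
  continuous_pi fun a => (h a).continuous.comp (continuous_apply a)

/-- one dense set that is open -/
theorem openstep {D : Set (ι → C)} (hO : IsOpen D) (hD : Dense D) (m : ℕ) :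
    ∃ k : ι → C → C, (∀ a, Good (k a)) ∧ (∀ a, IsOpenMap (k a)) ∧ (∀ a, Pres m (k a)) ∧
      ∀ y : ι → C, (fun a => k a (y a)) ∈ D := by
  classical
  have := Fintype.ofFinite ι
  suffices H : ∀ S : Finset (ι → Fin m → Bool), ∃ k : ι → C → C, (∀ a, Good (k a)) ∧
      (∀ a, IsOpenMap (k a)) ∧ (∀ a, Pres m (k a)) ∧
      ∀ y : ι → C, (fun a => rs m (y a)) ∈ S → (fun a => k a (y a)) ∈ D by
    obtain ⟨k, h1, h2, h3, h4⟩ := H Finset.univ
    exact ⟨k, h1, h2, h3, fun y => h4 y (Finset.mem_univ _)⟩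
  intro S
  induction S using Finset.induction_on with
  | empty => exact ⟨fun _ => id, fun _ => Good.id, fun _ => IsOpenMap.id, fun _ => Pres.id m,
      fun y h => absurd h (Finset.notMem_empty _)⟩
  | insert s S _ ih =>
    obtain ⟨k, h1, h2, h3, h4⟩ := ih
    set K : (ι → C) → (ι → C) := fun y a => k a (y a) with hK
    have hKc : Continuous K := continuous_pi' h1
    have hKo : IsOpenMap K := isOpenMap_pi h2
    have hD' : Dense (K ⁻¹' D) := hD.preimage hKo
    have hO' : IsOpen (K ⁻¹' D) := hO.preimage hKc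
    let w : ι → C := fun a i => if hi : i < m then s a ⟨i, hi⟩ else false
    have hw : ∀ a, rs m (w a) = s a := by
      intro a
      funext i
      simp [rs, w]
    have hB : IsOpen {x : ι → C | ∀ a, Agree m (w a) (x a)} := by
      have : {x : ι → C | ∀ a, Agree m (w a) (x a)} =
          ⋂ a, (fun x : ι → C => x a) ⁻¹' {y | Agree m (w a) y} := by
        ext x; simp
      rw [this]
      exact isOpen_iInter_of_finite fun a => (isOpen_agree m (w a)).preimage (continuous_apply a)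
    obtain ⟨z, hzB, hzD⟩ := hD'.inter_open_nonempty _ hB ⟨w, fun a => Agree.refl _ _⟩
    obtain ⟨l, hml, hl⟩ := exists_agree_pi hO' hzD m
    refine ⟨fun a => k a ∘ ins m l (z a), fun a => (h1 a).comp (ins_good hml _),
      fun a => (h2 a).comp (ins_open hml _), fun a => (h3 a).comp (ins_pres hml _), ?_⟩
    intro y hy
    have hrs : (fun a => rs m (ins m l (z a) (y a))) = fun a => rs m (y a) := by
      funext a
      rw [rs_eq]
      exact ins_pres hml (z a) (y a)
    rcases Finset.mem_insert.1 hy with h | h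
    · refine hl (fun a => ins m l (z a) (y a)) fun a => ins_agree ?_
      have h5 : rs m (y a) = s a := congrFun h a
      have h6 : rs m (z a) = s a := by
        rw [← hw a, rs_eq]
        exact (hzB a).symm
      rw [← rs_eq, h5, h6]
    · exact h4 (fun a => ins m l (z a) (y a)) (by rw [hrs]; exact h)

/-- countably many dense sets that are open -/
theorem mycielski {D : ℕ → Set (ι → C)} (hO : ∀ j, IsOpen (D j)) (hD : ∀ j, Dense (D j)) (m : ℕ) :
    ∃ k : ι → C → C, (∀ a, Good (k a)) ∧ (∀ a, Pres m (k a)) ∧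
      ∀ (y : ι → C) (j : ℕ), (fun a => k a (y a)) ∈ D j := by
  classical
  -- one step
  have step : ∀ (j : ℕ) (H : ι → C → C), (∀ a, Good (H a)) → (∀ a, IsOpenMap (H a)) →
      ∃ k : ι → C → C, (∀ a, Good (k a)) ∧ (∀ a, IsOpenMap (k a)) ∧ (∀ a, Pres (m + j) (k a)) ∧
      ∀ y : ι → C, (fun a => H a (k a (y a))) ∈ D j := by
    intro j H hH1 hH2
    exact openstep (D := (fun (y : ι → C) a => H a (y a)) ⁻¹' D j)
      ((hO j).preimage (continuous_pi' hH1)) ((hD j).preimage (isOpenMap_pi hH2)) (m + j)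
  let St := {H : ι → C → C // (∀ a, Good (H a)) ∧ ∀ a, IsOpenMap (H a)}
  choose! κ hκ using fun (j : ℕ) (H : St) => step j H.1 H.2.1 H.2.2
  let Hs : ℕ → St := fun n => Nat.rec (motive := fun _ => St)
    ⟨fun _ => id, fun _ => Good.id, fun _ => IsOpenMap.id⟩
    (fun j H => ⟨fun a => H.1 a ∘ κ j H a, fun a => (H.2.1 a).comp ((hκ j H).1 a),
      fun a => (H.2.2 a).comp ((hκ j H).2.1 a)⟩) n
  have hs : ∀ j a, (Hs (j + 1)).1 a = (Hs j).1 a ∘ κ j (Hs j) a := fun j a => rfl
  have hf : ∀ a, ∃ R : ℕ → C → C, (∀ j, Good (R j)) ∧ (∀ j, Pres (m + j) (R j)) ∧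
      ∀ j, R j = κ j (Hs j) a ∘ R (j + 1) := fun a =>
    fusion (fun j => κ j (Hs j) a) (fun j => (hκ j (Hs j)).1 a) m
      (fun j => (hκ j (Hs j)).2.2.1 a)
  choose R hR1 hR2 hR3 using hf
  have hR : ∀ j a, R a 0 = (Hs j).1 a ∘ R a j := by
    intro j a
    induction j with
    | zero => rfl
    | succ j ih => rw [hs, Function.comp_assoc, ← hR3 a j, ih]
  refine ⟨fun a => R a 0, fun a => hR1 a 0, fun a => hR2 a 0, ?_⟩
  intro y j
  have h1 := (hκ j (Hs j)).2.2.2 (fun a => R a (j + 1) (y a))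
  have h2 : (fun a => R a 0 (y a)) =
      fun a => (Hs j).1 a (κ j (Hs j) a (R a (j + 1) (y a))) := by
    funext a
    rw [hR (j + 1) a, hs]
    rfl
  rw [h2]
  exact h1

/-- deciding a countable cover by Borel sets -/
theorem decide_cover {A : ℕ → Set (ι → C)} (hA : ∀ i, MeasurableSet (A i)) {O : Set (ι → C)}
    (hO : IsOpen O) (hne : O.Nonempty) (hc : O ⊆ ⋃ i, A i) (m : ℕ) :
    ∃ (i : ℕ) (z : ι → C) (l : ℕ) (D : ℕ → Set (ι → C)), m ≤ l ∧ z ∈ O ∧
      (∀ j, IsOpen (D j)) ∧ (∀ j, Dense (D j)) ∧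
      ∀ x : ι → C, (∀ a, Agree l (z a) (x a)) → (∀ j, x ∈ D j) → x ∈ A i := by
  have h1 : ∀ i, ∃ u : Set (ι → C), IsOpen u ∧ ∀ᶠ x in residual (ι → C), x ∈ A i ↔ x ∈ u := by
    intro i
    obtain ⟨u, hu, hAu⟩ := (hA i).residualEq_isOpen
    exact ⟨u, hu, hAu.mono fun x hx => by exact iff_of_eq hx⟩
  choose u hu hAu using h1
  obtain ⟨i, hi⟩ : ∃ i, (O ∩ u i).Nonempty := by
    by_contra hcon
    push Not at hcon
    have h2 : ∀ᶠ x in residual (ι → C), ∀ i, x ∈ A i ↔ x ∈ u i := by
      rw [eventually_countable_forall]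
      exact hAu
    have h3 : Dense {x : ι → C | ∀ i, x ∈ A i ↔ x ∈ u i} := dense_of_mem_residual h2
    obtain ⟨x, hxO, hx⟩ := h3.inter_open_nonempty O hO hne
    obtain ⟨i, hi⟩ := mem_iUnion.1 (hc hxO)
    have : x ∈ O ∩ u i := ⟨hxO, (hx i).1 hi⟩
    rw [hcon i] at this
    exact this
  obtain ⟨z, hzO, hzu⟩ := hi
  obtain ⟨l, hml, hl⟩ := exists_agree_pi (hu i) hzu m
  obtain ⟨S, hS1, hS2, hS3, hS4⟩ := mem_residual_iff.1 (hAu i)
  have hS' : (insert univ S).Countable := hS3.insert _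
  obtain ⟨D, hD⟩ := hS'.exists_eq_range (insert_nonempty _ _)
  refine ⟨i, z, l, D, hml, hzO, ?_, ?_, ?_⟩
  · intro j
    have : D j ∈ insert univ S := by rw [hD]; exact mem_range_self j
    rcases mem_insert_iff.1 this with h | h
    · rw [h]; exact isOpen_univ
    · exact hS1 _ h
  · intro j
    have : D j ∈ insert univ S := by rw [hD]; exact mem_range_self j
    rcases mem_insert_iff.1 this with h | h
    · rw [h]; exact dense_univ
    · exact hS2 _ h
  · intro x hx hxD
    have h5 : x ∈ ⋂₀ S := by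
      intro t ht
      have : t ∈ range D := by rw [← hD]; exact mem_insert_of_mem _ ht
      obtain ⟨j, rfl⟩ := this
      exact hxD j
    exact (hS4 h5).2 (hl x hx)

end Run7.h232.BG
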