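import Mathlib

/-!
# Selection principles for Borel covers
-/

open Set MeasureTheory

namespace Run7.h232.BG

/-- The family `𝒰` of subsets of `X` is an ω-cover of `X`: the whole space is not a member, and every
finite subset of `X` is contained in some member. -/
def IsOmegaCover {X : Type*} (𝒰 : Set (Set X)) : Prop :=
  univ ∉ 𝒰 ∧ ∀ F : Set X, F.Finite → ∃ U ∈ 𝒰, F ⊆ U

/-- The family `𝒰` of subsets of `X` is a γ-cover of `X`: it is infinite, and every point of `X` lies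
in all but finitely many members. -/
def IsGammaCover {X : Type*} (𝒰 : Set (Set X)) : Prop :=
  𝒰.Infinite ∧ ∀ x : X, {U : Set X | U ∈ 𝒰 ∧ x ∉ U}.Finite

/-- `B_Ω`: the countable ω-covers of the space `X` by Borel sets. -/
def BorelOmega (X : Type*) [TopologicalSpace X] : Set (Set (Set X)) :=
  {𝒰 | 𝒰.Countable ∧ (∀ U ∈ 𝒰, MeasurableSet[borel X] U) ∧ IsOmegaCover 𝒰}

/-- `B_Γ`: the countable γ-covers of the space `X` by Borel sets. -/
def BorelGamma (X : Type*) [TopologicalSpace X] : Set (Set (Set X)) :=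
  {𝒰 | 𝒰.Countable ∧ (∀ U ∈ 𝒰, MeasurableSet[borel X] U) ∧ IsGammaCover 𝒰}

/-- The selection principle `S₁(𝒜, ℬ)`: for every sequence of members `𝒰 n` of `𝒜` there are
`U n ∈ 𝒰 n` such that `{U n : n ∈ ℕ}` is a member of `ℬ`. -/
def SelOne {X : Type*} (𝒜 ℬ : Set (Set (Set X))) : Prop :=
  ∀ 𝒰 : ℕ → Set (Set X), (∀ n, 𝒰 n ∈ 𝒜) → ∃ U : ℕ → Set X, (∀ n, U n ∈ 𝒰 n) ∧ range U ∈ ℬ

end Run7.h232.BG
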