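import Pool.Agent.Run7.h232.BG.Succ

/-!
# The transfinite construction
-/

set_option linter.unusedSimpArgs false
set_option linter.unusedSectionVars false

open Filter Topology Set

namespace Run7.h232.BG

/-- a stage of the construction -/
structure St where
  f : ℕ → C → C
  X : Set C
  good : ∀ i, Good (f i)
  cX : X.Countable

/-- the points still allowed -/
def St.Y (p : St) : Set C := p.X ∪ ⋃ i, range (p.f i)

/-- `q` is a later stage than `p` -/
def St.rel (p q : St) : Prop :=
  p.X ⊆ q.X ∧ q.Y ⊆ p.Y ∧ ∀ i n, ∃ j h, Good h ∧ Pres n h ∧ q.f j = p.f i ∘ h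

theorem St.rel_refl (p : St) : p.rel p :=
  ⟨Subset.rfl, Subset.rfl, fun i n => ⟨i, id, Good.id, Pres.id n, rfl⟩⟩

theorem St.rel_trans {p q r : St} (h : p.rel q) (h' : q.rel r) : p.rel r := by
  refine ⟨h.1.trans h'.1, h'.2.1.trans h.2.1, fun i n => ?_⟩
  obtain ⟨j, h1, hg1, hp1, he1⟩ := h.2.2 i n
  obtain ⟨k, h2, hg2, hp2, he2⟩ := h'.2.2 j n
  exact ⟨k, h1 ∘ h2, hg1.comp hg2, hp1.comp hp2, by rw [he2, he1, Function.comp_assoc]⟩

theorem St.rel_of_le {p : ℕ → St} (hp : ∀ n, (p n).rel (p (n + 1))) {m n : ℕ} (h : m ≤ n) :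
    (p m).rel (p n) := by
  induction n, h using Nat.le_induction with
  | base => exact St.rel_refl _
  | succ n _ ih => exact St.rel_trans ih (hp n)

theorem St.X_sub_Y (p : St) : p.X ⊆ p.Y := subset_union_left

theorem St.range_sub_Y (p : St) (i : ℕ) : range (p.f i) ⊆ p.Y :=
  (subset_iUnion (fun i => range (p.f i)) i).trans subset_union_right

/-- limits of sequences of stages -/
theorem limit {p : ℕ → St} (hp : ∀ n, (p n).rel (p (n + 1))) : ∃ q : St, ∀ n, (p n).rel q := by
  choose J H hH1 hH2 hH3 using fun n => (hp n).2.2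
  let js : ℕ → ℕ → ℕ → ℕ → ℕ := fun n i m k =>
    Nat.rec (motive := fun _ => ℕ) i (fun k j => J (n + k) j (m + k)) k
  have hjs0 : ∀ n i m, js n i m 0 = i := fun _ _ _ => rfl
  have hjs : ∀ n i m k, js n i m (k + 1) = J (n + k) (js n i m k) (m + k) := fun _ _ _ _ => rfl
  have hf : ∀ n i m, ∃ R : ℕ → C → C, (∀ j, Good (R j)) ∧ (∀ j, Pres (m + j) (R j)) ∧
      ∀ j, R j = H (n + j) (js n i m j) (m + j) ∘ R (j + 1) := fun n i m =>
    fusion (fun j => H (n + j) (js n i m j) (m + j)) (fun j => hH1 _ _ _) m (fun j => hH2 _ _ _)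
  choose R hR1 hR2 hR3 using hf
  have hR : ∀ n i m k, (p n).f i ∘ R n i m 0 = (p (n + k)).f (js n i m k) ∘ R n i m k := by
    intro n i m k
    induction k with
    | zero => rfl
    | succ k ih =>
      rw [ih, hR3 n i m k, hjs, ← Function.comp_assoc, ← hH3 (n + k) (js n i m k) (m + k)]
      rfl
  let nn : ℕ → ℕ := fun t => (Nat.unpair t).1
  let ii : ℕ → ℕ := fun t => (Nat.unpair (Nat.unpair t).2).1
  let mm : ℕ → ℕ := fun t => (Nat.unpair (Nat.unpair t).2).2
  refine ⟨⟨fun t => (p (nn t)).f (ii t) ∘ R (nn t) (ii t) (mm t) 0, ⋃ n, (p n).X,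
    fun t => ((p _).good _).comp (hR1 _ _ _ 0), countable_iUnion fun n => (p n).cX⟩, ?_⟩
  intro n
  refine ⟨subset_iUnion (fun n => (p n).X) n, ?_, ?_⟩
  · intro x hx
    rcases hx with hx | hx
    · obtain ⟨k, hk⟩ := mem_iUnion.1 hx
      rcases le_total k n with h | h
      · exact (p n).X_sub_Y ((St.rel_of_le hp h).1 hk)
      · exact (St.rel_of_le hp h).2.1 ((p k).X_sub_Y hk)
    · obtain ⟨t, ht⟩ := mem_iUnion.1 hx
      obtain ⟨y, rfl⟩ := ht
      have h1 := congrFun (hR (nn t) (ii t) (mm t) n) y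
      change (p (nn t)).f (ii t) (R (nn t) (ii t) (mm t) 0 y) ∈ _
      simp only [Function.comp_apply] at h1
      rw [h1]
      have h2 : (p n).rel (p (nn t + n)) := St.rel_of_le hp (by omega)
      exact h2.2.1 (St.range_sub_Y _ _ (mem_range_self _))
  · intro i m
    refine ⟨Nat.pair n (Nat.pair i m), R n i m 0, hR1 _ _ _ 0, hR2 n i m 0, ?_⟩
    simp only [nn, ii, mm, Nat.unpair_pair]

/-- the task of a sequence of covers is settled at the stage `q` -/
def Task (q : St) (U : ℕ → ℕ → Set (ℕ → ℤ)) : Prop :=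
  (∃ n, ∃ S : Set (ℕ → ℤ), S.Finite ∧ S ⊆ AddSubgroup.closure (emb '' q.X) ∧ ∀ i, ¬ S ⊆ U n i) ∨
  ∃ φ : ℕ → ℕ, ∀ g ∈ AddSubgroup.closure (emb '' q.Y), ∀ᶠ n in atTop, g ∈ U n (φ n)

theorem exists_finite_gen {Y : Set C} {S : Set (ℕ → ℤ)} (hS : S.Finite)
    (h : S ⊆ AddSubgroup.closure (emb '' Y)) :
    ∃ F : Set C, F.Finite ∧ F ⊆ Y ∧ S ⊆ AddSubgroup.closure (emb '' F) := by
  induction S, hS using Set.Finite.induction_on with
  | empty => exact ⟨∅, finite_empty, empty_subset _, empty_subset _⟩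
  | insert hs _ ih =>
    rename_i s S
    obtain ⟨F, hF1, hF2, hF3⟩ := ih ((subset_insert _ _).trans h)
    obtain ⟨T, c, hT, hsum⟩ := exists_comb (h (mem_insert _ _))
    refine ⟨F ∪ emb ⁻¹' (T : Set (ℕ → ℤ)), hF1.union
      (T.finite_toSet.preimage emb_injective.injOn), union_subset hF2 ?_, ?_⟩
    · intro x hx
      obtain ⟨y, hy, hxy⟩ := hT hx
      rwa [← emb_injective hxy]
    · refine insert_subset ?_ (hF3.trans ?_)
      · rw [← hsum]
        refine sum_mem fun v hv => zsmul_mem (AddSubgroup.subset_closure ?_) _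
        obtain ⟨y, hy, rfl⟩ := hT hv
        exact ⟨y, Or.inr hv, rfl⟩
      · exact AddSubgroup.closure_mono (image_mono subset_union_left)

theorem uncountable_C : Uncountable C := by
  rw [← Cardinal.aleph0_lt_mk_iff]
  simpa using Cardinal.cantor Cardinal.aleph0

/-- the successor step -/
theorem succ_step (p : St) {U : ℕ → ℕ → Set (ℕ → ℤ)} (hU : ∀ n i, MeasurableSet (U n i)) :
    ∃ q : St, p.rel q ∧ (∃ x ∈ q.X, x ∉ p.X) ∧ Task q U := by
  classical
  -- a new point
  have hunc : ¬ (range (p.f 0)).Countable := by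
    intro h
    have h1 : (univ : Set C).Countable := by
      have := h.preimage_of_injOn (f := p.f 0) (p.good 0).inj.injOn
      rwa [preimage_range] at this
    have := uncountable_C
    exact not_countable_univ h1
  obtain ⟨x, hx1, hx2⟩ : ∃ x ∈ range (p.f 0), x ∉ p.X := by
    by_contra hcon
    push Not at hcon
    exact hunc (p.cX.mono hcon)
  let p1 : St := ⟨p.f, insert x p.X, p.good, p.cX.insert x⟩
  have hY1 : p1.Y = p.Y := by
    ext z
    constructor
    · rintro (hz | hz)
      · rcases hz with rfl | hz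
        · exact St.range_sub_Y p 0 hx1
        · exact p.X_sub_Y hz
      · exact Or.inr hz
    · rintro (hz | hz)
      · exact Or.inl (Or.inr hz)
      · exact Or.inr hz
  have hrel1 : p.rel p1 := ⟨subset_insert _ _, hY1.subset,
    fun i n => ⟨i, id, Good.id, Pres.id n, rfl⟩⟩
  by_cases hk : ∃ n, ∃ S : Set (ℕ → ℤ), S.Finite ∧ S ⊆ AddSubgroup.closure (emb '' p1.Y) ∧
      ∀ i, ¬ S ⊆ U n i
  · obtain ⟨n, S, hS1, hS2, hS3⟩ := hk
    obtain ⟨F, hF1, hF2, hF3⟩ := exists_finite_gen hS1 hS2
    let q : St := ⟨p1.f, p1.X ∪ F, p1.good, p1.cX.union hF1.countable⟩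
    have hY : q.Y ⊆ p1.Y := by
      rintro z (hz | hz)
      · rcases hz with hz | hz
        · exact p1.X_sub_Y hz
        · exact hF2 hz
      · exact Or.inr hz
    have hrel : p1.rel q := ⟨subset_union_left, hY, fun i n => ⟨i, id, Good.id, Pres.id n, rfl⟩⟩
    refine ⟨q, St.rel_trans hrel1 hrel, ⟨x, Or.inl (mem_insert _ _), hx2⟩, Or.inl ⟨n, S, hS1, ?_,
      hS3⟩⟩
    exact hF3.trans (AddSubgroup.closure_mono (image_mono subset_union_right))
  · push Not at hk
    obtain ⟨g, hg⟩ := p1.cX.exists_eq_range ⟨x, mem_insert _ _⟩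
    let qq : ℕ → C → C := fun e => if e % 2 = 0 then p1.f (Nat.unpair (e / 2)).1
      else fun _ => g (e / 2)
    have hqq0 : ∀ t, qq (2 * t) = p1.f (Nat.unpair t).1 := by
      intro t
      simp [qq]
    have hqq1 : ∀ t, qq (2 * t + 1) = fun _ => g t := by
      intro t
      have h1 : (2 * t + 1) / 2 = t := by omega
      have h2 : (2 * t + 1) % 2 ≠ 0 := by omega
      simp only [qq, if_neg h2, h1]
    have hqc : ∀ e, Continuous (qq e) := by
      intro e
      simp only [qq]
      split_ifs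
      · exact (p1.good _).continuous
      · exact continuous_const
    have hYq : (⋃ e, range (qq e)) = p1.Y := by
      ext z
      constructor
      · intro hz
        obtain ⟨e, he⟩ := mem_iUnion.1 hz
        rcases Nat.even_or_odd' e with ⟨t, rfl | rfl⟩
        · rw [hqq0] at he
          exact St.range_sub_Y p1 _ he
        · rw [hqq1] at he
          obtain ⟨_, rfl⟩ := he
          refine p1.X_sub_Y ?_
          rw [hg]
          exact mem_range_self t
      · rintro (hz | hz)
        · rw [hg] at hz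
          obtain ⟨t, rfl⟩ := hz
          refine mem_iUnion.2 ⟨2 * t + 1, ?_⟩
          rw [hqq1]
          exact ⟨fun _ => false, rfl⟩
        · obtain ⟨i, hi⟩ := mem_iUnion.1 hz
          refine mem_iUnion.2 ⟨2 * Nat.pair i 0, ?_⟩
          rw [hqq0, Nat.unpair_pair]
          exact hi
    obtain ⟨h, hh1, hh2, φ, hφ⟩ := succFusion hqc hU (by
      rw [hYq]
      intro n S hS1 hS2
      exact hk n S hS1 hS2)
    let q : St := ⟨fun t => p1.f (Nat.unpair t).1 ∘ h (2 * t), p1.X,
      fun t => (p1.good _).comp (hh1 _), p1.cX⟩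
    have hYq' : q.Y ⊆ ⋃ e, range (qq e ∘ h e) := by
      rintro z (hz | hz)
      · change z ∈ p1.X at hz
        rw [hg] at hz
        obtain ⟨t, rfl⟩ := hz
        refine mem_iUnion.2 ⟨2 * t + 1, fun _ => false, ?_⟩
        rw [Function.comp_apply, hqq1]
      · obtain ⟨t, ht⟩ := mem_iUnion.1 hz
        refine mem_iUnion.2 ⟨2 * t, ?_⟩
        rw [hqq0]
        exact ht
    have hrel : p1.rel q := by
      refine ⟨Subset.rfl, ?_, ?_⟩
      · rintro z (hz | hz)
        · exact Or.inl hz
        · obtain ⟨t, ht⟩ := mem_iUnion.1 hz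
          obtain ⟨y, rfl⟩ := ht
          exact St.range_sub_Y p1 _ (mem_range_self _)
      · intro i n
        refine ⟨Nat.pair i n, h (2 * Nat.pair i n), hh1 _, (hh2 _).mono ?_, ?_⟩
        · have := Nat.right_le_pair i n
          omega
        · change p1.f (Nat.unpair (Nat.pair i n)).1 ∘ h (2 * Nat.pair i n) = _
          rw [Nat.unpair_pair]
    refine ⟨q, St.rel_trans hrel1 hrel, ⟨x, mem_insert _ _, hx2⟩, Or.inr ⟨φ, fun v hv => ?_⟩⟩
    exact hφ v (AddSubgroup.closure_mono (image_mono hYq') hv)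

/-- the initial stage -/
def St.init : St := ⟨fun _ => id, ∅, fun _ => Good.id, countable_empty⟩

section
variable {Ω : Type*} [LinearOrder Ω] [WellFoundedLT Ω] (hΩ : ∀ a : Ω, (Iio a).Countable)
  (e : Ω → ℕ → ℕ → Set (ℕ → ℤ)) (he : ∀ a n i, MeasurableSet (e a n i))

/-- what is asked of the stage at `a`, given the earlier ones -/
def Ask (a : Ω) (prev : ∀ b, b < a → St) (q : St) : Prop :=
  (∀ b hb, (prev b hb).rel q) ∧ Task q (e a) ∧ ∃ x ∈ q.X, ∀ b hb, x ∉ (prev b hb).X

include hΩ he in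
theorem exists_next (a : Ω) (p : Ω → St) (hp : ∀ b < a, ∀ c < b, (p c).rel (p b)) :
    ∃ q, Ask e a (fun b _ => p b) q := by
  rcases (Iio a).eq_empty_or_nonempty with h | h
  · obtain ⟨q, _, ⟨x, hx, _⟩, h3⟩ := succ_step St.init (he a)
    have hno : ∀ b, ¬ b < a := fun b hb => by
      have : b ∈ Iio a := hb
      rw [h] at this
      exact this
    exact ⟨q, fun b hb => absurd hb (hno b), h3, x, hx, fun b hb => absurd hb (hno b)⟩
  · obtain ⟨s, hs⟩ := (hΩ a).exists_eq_range h
    have hsa : ∀ n, s n < a := fun n => by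
      have : s n ∈ Iio a := by rw [hs]; exact mem_range_self n
      exact this
    let t : ℕ → Ω := fun n => Nat.rec (motive := fun _ => Ω) (s 0) (fun n b => max b (s (n + 1))) n
    have ht : ∀ n, t (n + 1) = max (t n) (s (n + 1)) := fun n => rfl
    have hta : ∀ n, t n < a := by
      intro n
      induction n with
      | zero => exact hsa 0
      | succ n ih => rw [ht]; exact max_lt ih (hsa _)
    have hst : ∀ n, s n ≤ t n := by
      intro n
      cases n with
      | zero => exact le_rfl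
      | succ n => rw [ht]; exact le_max_right _ _
    have hle : ∀ b c, b ≤ c → c < a → (p b).rel (p c) := by
      intro b c hbc hc
      rcases hbc.eq_or_lt with rfl | h
      · exact St.rel_refl _
      · exact hp c hc b h
    obtain ⟨q0, hq0⟩ := limit (p := fun n => p (t n))
      (fun n => hle _ _ (by rw [ht]; exact le_max_left _ _) (hta (n + 1)))
    obtain ⟨q, h1, ⟨x, hx1, hx2⟩, h3⟩ := succ_step q0 (he a)
    have hb0 : ∀ b, b < a → (p b).rel q0 := by
      intro b hb
      have : b ∈ range s := by rw [← hs]; exact hb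
      obtain ⟨n, rfl⟩ := this
      exact St.rel_trans (hle _ _ (hst n) (hta n)) (hq0 n)
    exact ⟨q, fun b hb => St.rel_trans (hb0 b hb) h1, h3, x, hx1,
      fun b hb hxb => hx2 ((hb0 b hb).1 hxb)⟩

include hΩ he in
theorem exists_seq : ∃ p : Ω → St, ∀ a, (∀ b < a, (p b).rel (p a)) ∧ Task (p a) (e a) ∧
    ∃ x ∈ (p a).X, ∀ b < a, x ∉ (p b).X := by
  classical
  let F : ∀ a : Ω, (∀ b, b < a → St) → St := fun a prev =>
    if h : ∃ q, Ask e a prev q then h.choose else St.init
  let p : Ω → St := WellFoundedLT.fix F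
  have hpe : ∀ a, p a = F a (fun b _ => p b) := fun a => WellFoundedLT.fix_eq F a
  have hex : ∀ a, (∃ q, Ask e a (fun b _ => p b) q) → Ask e a (fun b _ => p b) (p a) := by
    intro a h
    rw [hpe a]
    simp only [F]
    rw [dif_pos h]
    exact h.choose_spec
  have main : ∀ a, Ask e a (fun b _ => p b) (p a) := by
    intro a
    induction a using WellFoundedLT.induction with
    | ind a ih =>
      refine hex a (exists_next hΩ e he a p ?_)
      intro b hb c hc
      exact (ih b hb).1 c hc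
  exact ⟨p, fun a => ⟨(main a).1, (main a).2.1, (main a).2.2⟩⟩

end

end Run7.h232.BG
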