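import Pool.Agent.Run7.h232.BG.Defs
import Pool.Agent.Run7.h232.BG.Rec

/-!
# A subgroup of `ℤ^ℕ` of size continuum with `S₁(B_Ω, B_Γ)`, under CH
-/

set_option linter.unusedSimpArgs false
set_option linter.unusedSectionVars false

open Filter Topology Set Cardinal

namespace Run7.h232.BG

/-- sequences of sequences of Borel sets -/
abbrev Arr := ℕ → ℕ → {s : Set (ℕ → ℤ) // MeasurableSet s}

theorem mk_Arr : #Arr ≤ 𝔠 := by
  have h1 : #{s : Set (ℕ → ℤ) // MeasurableSet s} ≤ 𝔠 := by
    obtain ⟨b, hb, hgen⟩ := MeasurableSpace.CountablyGenerated.isCountablyGenerated (α := ℕ → ℤ)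
    have h2 : #b ≤ 𝔠 := (le_aleph0_iff_set_countable.2 hb).trans aleph0_le_continuum
    have h3 := MeasurableSpace.cardinal_measurableSet_le_continuum h2
    rw [← hgen] at h3
    exact h3
  have h2 : #(ℕ → {s : Set (ℕ → ℤ) // MeasurableSet s}) ≤ 𝔠 := by
    rw [← power_def, mk_nat]
    exact (power_le_power_right h1).trans continuum_power_aleph0.le
  rw [← power_def, mk_nat]
  exact (power_le_power_right h2).trans continuum_power_aleph0.le

theorem exists_surj (hCH : (𝔠 : Cardinal.{0}) = ℵ₁) : ∃ e : (ℵ₁ : Cardinal.{0}).ord.ToType → Arr,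
    Function.Surjective e := by
  have h : #Arr ≤ #((ℵ₁ : Cardinal.{0}).ord.ToType) := by
    rw [mk_ord_toType, ← hCH]
    exact mk_Arr
  obtain ⟨f⟩ := Cardinal.le_def _ _ |>.1 h
  have : Nonempty Arr := ⟨fun _ _ => ⟨∅, MeasurableSet.empty⟩⟩
  exact ⟨Function.invFun f, Function.invFun_surjective f.injective⟩

theorem countable_Iio (a : (ℵ₁ : Cardinal.{0}).ord.ToType) : (Iio a).Countable := by
  rw [← le_aleph0_iff_set_countable, ← Order.lt_succ_iff, succ_aleph0]
  exact mk_Iio_toType_ord_lt a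

theorem exists_group (hCH : (𝔠 : Cardinal.{0}) = ℵ₁) :
    ∃ G : AddSubgroup (ℕ → ℤ), #G = 𝔠 ∧ SelOne (BorelOmega G) (BorelGamma G) := by
  classical
  obtain ⟨e, he⟩ := exists_surj hCH
  obtain ⟨p, hp⟩ := exists_seq countable_Iio (fun a n i => (e a n i).1)
    (fun a n i => (e a n i).2)
  set X : Set C := ⋃ a, (p a).X with hX
  set G : AddSubgroup (ℕ → ℤ) := AddSubgroup.closure (emb '' X) with hG
  have hXY : ∀ a, X ⊆ (p a).Y := by
    intro a x hx
    obtain ⟨b, hb⟩ := mem_iUnion.1 hx
    rcases lt_trichotomy b a with h | rfl | h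
    · exact St.X_sub_Y _ (((hp a).1 b h).1 hb)
    · exact St.X_sub_Y _ hb
    · exact ((hp b).1 a h).2.1 (St.X_sub_Y _ hb)
  refine ⟨G, le_antisymm ?_ ?_, ?_⟩
  · calc #G ≤ #(ℕ → ℤ) := mk_subtype_le _
      _ = 𝔠 := by simp
  · choose x hx1 hx2 using fun a => (hp a).2.2
    have hinj : Function.Injective x := by
      intro a b hab
      by_contra hne
      rcases lt_or_gt_of_ne hne with h | h
      · exact hx2 b a h (hab ▸ hx1 a)
      · exact hx2 a b h (hab ▸ hx1 b)
    have h1 : #((ℵ₁ : Cardinal.{0}).ord.ToType) ≤ #G := by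
      refine mk_le_of_injective (f := fun a => (⟨emb (x a), AddSubgroup.subset_closure
        ⟨x a, mem_iUnion.2 ⟨a, hx1 a⟩, rfl⟩⟩ : G)) ?_
      intro a b hab
      exact hinj (emb_injective (congrArg Subtype.val hab))
    rw [mk_ord_toType] at h1
    rwa [hCH]
  · intro 𝒰 h𝒰
    have hen : ∀ n, ∃ V : ℕ → Set G, 𝒰 n = range V := by
      intro n
      obtain ⟨U, hU, _⟩ := (h𝒰 n).2.2.2 ∅ finite_empty
      exact (h𝒰 n).1.exists_eq_range ⟨U, hU⟩
    choose V hV using hen
    have hVm : ∀ n i, V n i ∈ 𝒰 n := fun n i => by rw [hV]; exact mem_range_self i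
    have hB : ∀ n i, ∃ B : Set (ℕ → ℤ), MeasurableSet B ∧ Subtype.val ⁻¹' B = V n i := by
      intro n i
      have h1 := (h𝒰 n).2.1 _ (hVm n i)
      rw [← BorelSpace.measurable_eq (α := G)] at h1
      exact h1
    choose B hB1 hB2 using hB
    obtain ⟨a, ha⟩ := he (fun n i => ⟨B n i, hB1 n i⟩)
    have hsub : ∀ v : G, v.1 ∈ AddSubgroup.closure (emb '' (p a).Y) := fun v =>
      AddSubgroup.closure_mono (image_mono (hXY a)) v.2
    rcases (hp a).2.1 with ⟨n, S, hS1, hS2, hS3⟩ | ⟨φ, hφ⟩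
    · exfalso
      obtain ⟨W, hW, hFW⟩ := (h𝒰 n).2.2.2 (Subtype.val ⁻¹' S)
        (hS1.preimage Subtype.val_injective.injOn)
      rw [hV] at hW
      obtain ⟨i, rfl⟩ := hW
      apply hS3 i
      intro s hs
      have hsG : s ∈ G := AddSubgroup.closure_mono
        (image_mono (subset_iUnion (fun a => (p a).X) a)) (hS2 hs)
      have h1 : (⟨s, hsG⟩ : G) ∈ V n i := hFW hs
      rw [← hB2] at h1
      simp only [ha]
      exact h1
    · have hev : ∀ x : G, ∀ᶠ n in atTop, x ∈ V n (φ n) := by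
        intro x
        filter_upwards [hφ x.1 (hsub x)] with n hn
        rw [← hB2]
        simp only [ha] at hn
        exact hn
      refine ⟨fun n => V n (φ n), fun n => hVm n _, countable_range _, ?_, ?_, ?_⟩
      · rintro _ ⟨n, rfl⟩
        exact (h𝒰 n).2.1 _ (hVm n _)
      · intro hfin
        have : Finite (range fun n => V n (φ n)) := hfin
        obtain ⟨W, hW⟩ := Finite.exists_infinite_fiber
          (rangeFactorization fun n => V n (φ n))
        have hWu : W.1 = Set.univ := by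
          refine eq_univ_of_forall fun x => ?_
          obtain ⟨N, hN⟩ := eventually_atTop.1 (hev x)
          have h1 : (rangeFactorization (fun n => V n (φ n)) ⁻¹' {W}).Infinite := infinite_coe_iff.1 hW
          obtain ⟨n, hn, hNn⟩ := h1.exists_gt N
          have h2 := hN n hNn.le
          have h3 : V n (φ n) = W.1 := congrArg Subtype.val hn
          rwa [h3] at h2
        obtain ⟨n, hn⟩ := W.2
        have h4 : V n (φ n) = Set.univ := hn.trans hWu
        exact (h𝒰 n).2.2.1 (h4 ▸ hVm n (φ n))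
      · intro x
        have h1 : {n | ¬ x ∈ V n (φ n)}.Finite := by
          have := hev x
          rwa [← Nat.cofinite_eq_atTop, eventually_cofinite] at this
        refine (h1.image fun n => V n (φ n)).subset ?_
        rintro _ ⟨⟨n, rfl⟩, hn⟩
        exact ⟨n, hn, rfl⟩

end Run7.h232.BG
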