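import Mathlib

/-!
# Length-preserving injections of the Cantor space and their fusion
-/

set_option linter.unusedSimpArgs false
set_option linter.unusedSectionVars false

open Filter Topology Set

namespace Run7.h232.BG

/-- the Cantor space -/
abbrev C := ℕ → Bool

/-- agreement on the first `n` bits -/
def Agree (n : ℕ) (x y : C) : Prop := ∀ i < n, x i = y i

theorem Agree.symm {n : ℕ} {x y : C} (h : Agree n x y) : Agree n y x := fun i hi => (h i hi).symm

theorem Agree.refl (n : ℕ) (x : C) : Agree n x x := fun _ _ => rfl

theorem Agree.trans {n : ℕ} {x y z : C} (h : Agree n x y) (h' : Agree n y z) : Agree n x z :=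
  fun i hi => (h i hi).trans (h' i hi)

theorem Agree.mono {n m : ℕ} {x y : C} (h : Agree n x y) (hm : m ≤ n) : Agree m x y :=
  fun i hi => h i (hi.trans_le hm)

/-- the maps used: `n` bits of the argument determine `n` bits of the value; injective -/
structure Good (h : C → C) : Prop where
  lip : ∀ n x y, Agree n x y → Agree n (h x) (h y)
  inj : Function.Injective h

/-- `h` preserves the first `n` bits -/
def Pres (n : ℕ) (h : C → C) : Prop := ∀ x, Agree n (h x) x

theorem Good.id : Good (id : C → C) := ⟨fun _ _ _ h => h, Function.injective_id⟩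

theorem Good.comp {f g : C → C} (hf : Good f) (hg : Good g) : Good (f ∘ g) :=
  ⟨fun n _ _ h => hf.lip n _ _ (hg.lip n _ _ h), hf.inj.comp hg.inj⟩

theorem Pres.id (n : ℕ) : Pres n (id : C → C) := fun x => Agree.refl n x

theorem Pres.comp {n : ℕ} {f g : C → C} (hf : Pres n f) (hg : Pres n g) : Pres n (f ∘ g) :=
  fun x => (hf (g x)).trans (hg x)

theorem Pres.mono {n m : ℕ} {f : C → C} (hf : Pres n f) (hm : m ≤ n) : Pres m f :=
  fun x => (hf x).mono hm

theorem isOpen_agree (n : ℕ) (x : C) : IsOpen {y : C | Agree n x y} := by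
  have : {y : C | Agree n x y} = ⋂ i ∈ Finset.range n, {y : C | x i = y i} := by
    ext y
    simp [Agree]
  rw [this]
  refine isOpen_biInter_finset fun i _ => ?_
  have h : {y : C | x i = y i} = (fun y : C => y i) ⁻¹' {x i} := by
    ext y; simp [eq_comm]
  rw [h]
  exact (isOpen_discrete _).preimage (continuous_apply i)

theorem Good.continuous {h : C → C} (hg : Good h) : Continuous h := by
  refine continuous_pi fun i => ?_
  rw [continuous_iff_continuousAt]
  intro x
  have : (fun y => h y i) =ᶠ[𝓝 x] fun _ => h x i := by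
    filter_upwards [(isOpen_agree (i + 1) x).mem_nhds (Agree.refl _ x)] with y hy
    exact ((hg.lip _ _ _ hy) i (Nat.lt_succ_self i)).symm
  exact continuousAt_const.congr this.symm

/-- basic neighbourhoods in the Cantor space -/
theorem exists_agree {O : Set C} (hO : IsOpen O) {z : C} (hz : z ∈ O) :
    ∃ l, ∀ x, Agree l z x → x ∈ O := by
  rw [isOpen_pi_iff] at hO
  obtain ⟨I, u, hu, hsub⟩ := hO z hz
  refine ⟨I.sup id + 1, fun x hx => hsub fun i hi => ?_⟩
  have h1 : i ≤ I.sup id := Finset.le_sup (f := id) hi
  rw [← hx i (by omega)]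
  exact (hu i hi).2

/-- basic neighbourhoods in finite powers of the Cantor space -/
theorem exists_agree_pi {ι : Type*} [Finite ι] {O : Set (ι → C)} (hO : IsOpen O) {z : ι → C}
    (hz : z ∈ O) (m : ℕ) : ∃ l, m ≤ l ∧ ∀ x : ι → C, (∀ a, Agree l (z a) (x a)) → x ∈ O := by
  classical
  have := Fintype.ofFinite ι
  rw [isOpen_pi_iff] at hO
  obtain ⟨I, u, hu, hsub⟩ := hO z hz
  have h1 : ∀ a : ι, ∃ l, a ∈ I → ∀ x, Agree l (z a) x → x ∈ u a := by
    intro a
    by_cases ha : a ∈ I
    · obtain ⟨l, hl⟩ := exists_agree (hu a ha).1 (hu a ha).2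
      exact ⟨l, fun _ => hl⟩
    · exact ⟨0, fun h => absurd h ha⟩
  choose l hl using h1
  refine ⟨max m (Finset.univ.sup l), le_max_left _ _, fun x hx => hsub fun a ha => ?_⟩
  exact hl a ha _ ((hx a).mono ((Finset.le_sup (f := l) (Finset.mem_univ a)).trans
    (le_max_right _ _)))

section Fusion

variable (κ : ℕ → C → C)

/-- `κ j ∘ ... ∘ κ (j + r - 1)` -/
def T : ℕ → ℕ → C → C
  | _, 0 => id
  | j, r + 1 => κ j ∘ T (j + 1) r

theorem T_zero (j : ℕ) : T κ j 0 = id := rfl

theorem T_succ (j r : ℕ) : T κ j (r + 1) = κ j ∘ T κ (j + 1) r := rfl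

theorem T_succ' (j r : ℕ) : T κ j (r + 1) = T κ j r ∘ κ (j + r) := by
  induction r generalizing j with
  | zero => rfl
  | succ r ih =>
    rw [T_succ, ih (j + 1), T_succ κ j r, Function.comp_assoc]
    have : j + 1 + r = j + (r + 1) := by omega
    rw [this]

variable {κ} (hg : ∀ j, Good (κ j)) {ℓ : ℕ} (hp : ∀ j, Pres (ℓ + j) (κ j))

include hg in
theorem T_good (j r : ℕ) : Good (T κ j r) := by
  induction r generalizing j with
  | zero => exact Good.id
  | succ r ih => exact (hg j).comp (ih (j + 1))

include hp in
theorem T_pres (j r : ℕ) : Pres (ℓ + j) (T κ j r) := by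
  induction r generalizing j with
  | zero => exact Pres.id _
  | succ r ih => exact (hp j).comp ((ih (j + 1)).mono (by omega))

include hg hp in
theorem T_agree (j r : ℕ) (x : C) : Agree (ℓ + j + r) (T κ j (r + 1) x) (T κ j r x) := by
  rw [T_succ']
  refine (T_good hg j r).lip _ _ _ ?_
  have := hp (j + r) x
  exact this.mono (by omega)

variable (κ) in
/-- the limit -/
def R (j : ℕ) (x : C) : C := fun i => T κ j (i + 1) x i

include hg hp in
theorem T_eq_R (j r i : ℕ) (h : i < r) (x : C) : T κ j r x i = R κ j x i := by
  induction r with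
  | zero => omega
  | succ r ih =>
    rcases Nat.lt_or_ge i r with h1 | h1
    · rw [← ih h1]
      exact T_agree hg hp j r x i (by omega)
    · have : i = r := by omega
      subst this
      rfl

include hg hp in
theorem R_succ (j : ℕ) : R κ j = κ j ∘ R κ (j + 1) := by
  funext x i
  rw [← T_eq_R hg hp j (i + 2) i (by omega), T_succ, Function.comp_apply, Function.comp_apply]
  refine (hg j).lip (i + 1) _ _ ?_ i (Nat.lt_succ_self i)
  intro i' hi'
  exact T_eq_R hg hp (j + 1) (i + 1) i' (by omega) x

include hg hp in
theorem R_pres (j : ℕ) : Pres (ℓ + j) (R κ j) := by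
  intro x i hi
  exact T_pres hp j (i + 1) x i hi

include hg hp in
theorem R_eq (j r : ℕ) : R κ j = T κ j r ∘ R κ (j + r) := by
  induction r generalizing j with
  | zero => rfl
  | succ r ih =>
    rw [R_succ hg hp j, ih (j + 1), T_succ, Function.comp_assoc]
    have : j + 1 + r = j + (r + 1) := by omega
    rw [this]

include hg hp in
theorem R_good (j : ℕ) : Good (R κ j) := by
  constructor
  · intro n x y h i hi
    exact (T_good hg j (i + 1)).lip n _ _ h i hi
  · intro x y hxy
    by_contra hne
    obtain ⟨m, hm⟩ := Function.ne_iff.1 hne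
    rw [R_eq hg hp j (m + 1)] at hxy
    have h1 := (T_good hg j (m + 1)).inj hxy
    have h2 := R_pres hg hp (j + (m + 1)) x m (by omega)
    have h3 := R_pres hg hp (j + (m + 1)) y m (by omega)
    exact hm (h2.symm.trans ((congrFun h1 m).trans h3))

end Fusion

/-- the fusion lemma -/
theorem fusion (κ : ℕ → C → C) (hg : ∀ j, Good (κ j)) (ℓ : ℕ) (hp : ∀ j, Pres (ℓ + j) (κ j)) :
    ∃ R : ℕ → C → C, (∀ j, Good (R j)) ∧ (∀ j, Pres (ℓ + j) (R j)) ∧
      ∀ j, R j = κ j ∘ R (j + 1) :=
  ⟨R κ, R_good hg hp, R_pres hg hp, R_succ hg hp⟩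

/-! ### insertion of a string -/

open Classical in
/-- replace the first `m` bits of `y`, if they are those of `z`, by the first `l` bits of `z` -/
noncomputable def ins (m l : ℕ) (z y : C) : C :=
  if Agree m z y then (fun i => if i < l then z i else y (i - l + m)) else y

theorem ins_of {m l : ℕ} {z y : C} (h : Agree m z y) :
    ins m l z y = fun i => if i < l then z i else y (i - l + m) := if_pos h

theorem ins_of_not {m l : ℕ} {z y : C} (h : ¬ Agree m z y) : ins m l z y = y := if_neg h

theorem ins_agree {m l : ℕ} {z y : C} (h : Agree m z y) : Agree l z (ins m l z y) := by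
  intro i hi
  rw [ins_of h]
  simp [hi]

theorem ins_pres {m l : ℕ} (hml : m ≤ l) (z : C) : Pres m (ins m l z) := by
  intro y
  by_cases h : Agree m z y
  · exact ((ins_agree h).mono hml).symm.trans h
  · rw [ins_of_not h]; exact Agree.refl _ _

theorem ins_good {m l : ℕ} (hml : m ≤ l) (z : C) : Good (ins m l z) := by
  constructor
  · intro n x y h
    rcases Nat.lt_or_ge n m with hn | hn
    · exact ((ins_pres hml z x).mono hn.le).trans (h.trans ((ins_pres hml z y).mono hn.le).symm)
    · by_cases hx : Agree m z x
      · have hy : Agree m z y := hx.trans (h.mono hn)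
        rw [ins_of hx, ins_of hy]
        intro i hi
        simp only
        split_ifs with h1
        · rfl
        · exact h _ (by omega)
      · have hy : ¬ Agree m z y := fun hy => hx (hy.trans (h.mono hn).symm)
        rw [ins_of_not hx, ins_of_not hy]
        exact h
  · intro x y h
    have hxy : Agree m x y := by
      have h1 := ins_pres hml z x
      have h2 := ins_pres hml z y
      rw [h] at h1
      exact h1.symm.trans h2
    by_cases hx : Agree m z x
    · have hy : Agree m z y := hx.trans hxy
      rw [ins_of hx, ins_of hy] at h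
      funext i
      rcases Nat.lt_or_ge i m with hi | hi
      · exact hxy i hi
      · have := congrFun h (i - m + l)
        rw [if_neg (by omega), if_neg (by omega)] at this
        have e : i - m + l - l + m = i := by omega
        rwa [e] at this
    · have hy : ¬ Agree m z y := fun hy => hx (hy.trans hxy.symm)
      rwa [ins_of_not hx, ins_of_not hy] at h

theorem ins_open {m l : ℕ} (hml : m ≤ l) (z : C) : IsOpenMap (ins m l z) := by
  intro O hO
  rw [isOpen_iff_mem_nhds]
  rintro _ ⟨y, hy, rfl⟩
  obtain ⟨j, hj⟩ := exists_agree hO hy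
  by_cases h : Agree m z y
  · refine mem_of_superset ((isOpen_agree (max l (j + l)) (ins m l z y)).mem_nhds
      (Agree.refl _ _)) ?_
    intro w hw
    have hwz : Agree l z w := (ins_agree h).trans (hw.mono (le_max_left _ _))
    refine ⟨fun i => if i < m then z i else w (i - m + l), ?_, ?_⟩
    · refine hj _ ?_
      intro i hi
      simp only
      split_ifs with h1
      · exact (h i h1).symm
      · have h2 := hw (i - m + l) (by
          have := le_max_right l (j + l)
          omega)
        rw [← h2, ins_of h]
        simp only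
        rw [if_neg (by omega)]
        congr 1
        omega
    · have h3 : Agree m z (fun i => if i < m then z i else w (i - m + l)) := by
        intro i hi
        simp [hi]
      rw [ins_of h3]
      funext i
      split_ifs with h4 h5
      · exact hwz i h4
      · omega
      · congr 1
        omega
  · rw [ins_of_not h]
    refine mem_of_superset ((isOpen_agree (max m j) y).mem_nhds (Agree.refl _ _)) ?_
    intro w hw
    refine ⟨w, hj _ (hw.mono (le_max_right _ _)), ins_of_not fun h' => h ?_⟩
    exact h'.trans (hw.mono (le_max_left _ _)).symm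

end Run7.h232.BG
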