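import Pool.Agent.Run7.h232.BG.Category

/-!
# The successor step: simultaneous fusion deciding a sequence of Borel covers
-/

set_option linter.unusedSimpArgs false
set_option linter.unusedSectionVars false

open Filter Topology Set

namespace Run7.h232.BG

theorem node {ι : Type*} [Finite ι] {A : ℕ → Set (ι → C)} (hA : ∀ i, MeasurableSet (A i)) (n : ℕ)
    (σ : ι → C) (hc : ∀ x : ι → C, (∀ a, Agree n (σ a) (x a)) → ∃ i, x ∈ A i) :
    ∃ (i : ℕ) (k : ι → C → C), (∀ a, Good (k a)) ∧
      (∀ a y, Agree n (σ a) y → Agree n (σ a) (k a y)) ∧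
      ∀ y : ι → C, (∀ a, Agree n (σ a) (y a)) → (fun a => k a (y a)) ∈ A i := by
  have hO : IsOpen {x : ι → C | ∀ a, Agree n (σ a) (x a)} := by
    have : {x : ι → C | ∀ a, Agree n (σ a) (x a)} =
        ⋂ a, (fun x : ι → C => x a) ⁻¹' {y | Agree n (σ a) y} := by
      ext x; simp
    rw [this]
    exact isOpen_iInter_of_finite fun a => (isOpen_agree n (σ a)).preimage (continuous_apply a)
  obtain ⟨i, z, l, D, hnl, hz, hDO, hDd, hD⟩ := decide_cover hA hO ⟨σ, fun a => Agree.refl _ _⟩
    (fun x hx => mem_iUnion.2 (hc x hx)) n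
  obtain ⟨k, hk1, hk2, hk3⟩ := mycielski hDO hDd l
  have key : ∀ a y, Agree n (σ a) y → Agree l (z a) (k a (ins n l (z a) y)) := by
    intro a y hy
    have h1 : Agree n (z a) y := (hz a).symm.trans hy
    exact (ins_agree h1).trans (hk2 a _).symm
  refine ⟨i, fun a => k a ∘ ins n l (z a), fun a => (hk1 a).comp (ins_good hnl _), ?_, ?_⟩
  · intro a y hy
    exact (hz a).trans ((key a y hy).mono hnl)
  · intro y hy
    exact hD _ (fun a => key a _ (hy a)) (fun j => hk3 (fun a => ins n l (z a) (y a)) j)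

/-- the embedding of the Cantor space in `ℤ^ℕ` -/
def emb (x : C) : ℕ → ℤ := fun i => if x i then 1 else 0

theorem continuous_emb : Continuous emb := by
  refine continuous_pi fun i => ?_
  exact (continuous_of_discreteTopology (f := fun b : Bool => if b then (1 : ℤ) else 0)).comp
    (continuous_apply i)

theorem emb_injective : Function.Injective emb := by
  intro x y h
  funext i
  have := congrFun h i
  unfold emb at this
  cases hx : x i <;> cases hy : y i <;> simp_all

/-- the first `n` bits, followed by zeros -/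
def ext {n : ℕ} (s : Fin n → Bool) : C := fun i => if h : i < n then s ⟨i, h⟩ else false

theorem rs_ext {n : ℕ} (s : Fin n → Bool) : rs n (ext s) = s := by
  funext i
  simp [rs, ext]

theorem agree_ext {n : ℕ} {s : Fin n → Bool} {y : C} : Agree n (ext s) y ↔ rs n y = s := by
  rw [← rs_eq, rs_ext, eq_comm]

/-- the nodes at level `n` -/
abbrev Nd (n : ℕ) := Fin (n + 1) × (Fin n → Bool)

section
variable (q : ℕ → C → C) (U : ℕ → ℕ → Set (ℕ → ℤ))

/-- integer combinations of the points at the nodes -/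
def comb {n : ℕ} (H : ℕ → C → C) (x : Nd n → C) (m : Nd n → ℤ) : ℕ → ℤ :=
  ∑ a, m a • emb (q a.1 (H a.1 (x a)))

/-- the coefficients of absolute value at most `n` -/
def coef (n : ℕ) : Set (Nd n → ℤ) := Icc (fun _ => -(n : ℤ)) (fun _ => (n : ℤ))

variable {q U} (hq : ∀ e, Continuous (q e)) (hU : ∀ n i, MeasurableSet (U n i))

include hq in
theorem continuous_comb {n : ℕ} {H : ℕ → C → C} (hH : ∀ e, Good (H e)) (m : Nd n → ℤ) :
    Continuous (fun x => comb q H x m) := by
  refine continuous_finsetSum _ fun a _ => ?_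
  exact (continuous_emb.comp ((hq _).comp ((hH _).continuous.comp (continuous_apply a)))).const_smul
    (m a)

include hq hU in
theorem step (hcov : ∀ n (S : Set (ℕ → ℤ)), S.Finite →
      S ⊆ AddSubgroup.closure (emb '' ⋃ e, range (q e)) → ∃ i, S ⊆ U n i)
    (n : ℕ) (H : ℕ → C → C) (hH : ∀ e, Good (H e)) :
    ∃ (κ : ℕ → C → C) (i : ℕ), (∀ e, Good (κ e)) ∧ (∀ e, Pres n (κ e)) ∧
      (∀ e, n < e → κ e = id) ∧
      ∀ y : Nd n → C, (∀ a, rs n (y a) = a.2) → ∀ m ∈ coef n,
        comb q H (fun a => κ a.1 (y a)) m ∈ U n i := by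
  classical
  let A : ℕ → Set (Nd n → C) := fun i => {x | ∀ m ∈ coef n, comb q H x m ∈ U n i}
  have hA : ∀ i, MeasurableSet (A i) := by
    intro i
    have : A i = ⋂ m : Nd n → ℤ, ⋂ _ : m ∈ coef n, (fun x => comb q H x m) ⁻¹' U n i := by
      ext x
      simp [A]
    rw [this]
    refine MeasurableSet.iInter fun m => MeasurableSet.iInter fun _ => ?_
    exact (continuous_comb hq hH m).measurable (hU n i)
  have hc : ∀ x : Nd n → C, (∀ a, Agree n (ext a.2) (x a)) → ∃ i, x ∈ A i := by
    intro x _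
    obtain ⟨i, hi⟩ := hcov n ((fun m => comb q H x m) '' coef n) ((finite_Icc _ _).image _) (by
      rintro _ ⟨m, _, rfl⟩
      refine sum_mem fun a _ => zsmul_mem (AddSubgroup.subset_closure ?_) _
      exact ⟨_, mem_iUnion.2 ⟨_, mem_range_self _⟩, rfl⟩)
    exact ⟨i, fun m hm => hi ⟨m, hm, rfl⟩⟩
  obtain ⟨i, k, hk1, hk2, hk3⟩ := node hA n (fun a => ext a.2) hc
  have hpres : ∀ (e : Fin (n + 1)) (y : C), Agree n (k (e, rs n y) y) y := by
    intro e y
    have h1 : Agree n (ext (rs n y)) y := agree_ext.2 rfl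
    exact (hk2 (e, rs n y) y h1).symm.trans h1
  refine ⟨fun e y => if h : e < n + 1 then k (⟨e, h⟩, rs n y) y else y, i, ?_, ?_, ?_, ?_⟩
  · intro e
    by_cases he : e < n + 1
    · simp only [he, dite_true]
      constructor
      · intro j x y hxy
        rcases Nat.lt_or_ge j n with hj | hj
        · exact ((hpres ⟨e, he⟩ x).mono hj.le).trans
            (hxy.trans ((hpres ⟨e, he⟩ y).mono hj.le).symm)
        · have : rs n x = rs n y := rs_eq.2 (hxy.mono hj)
          rw [this]
          exact (hk1 _).lip j _ _ hxy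
      · intro x y hxy
        have h1 := hpres ⟨e, he⟩ x
        have h2 := hpres ⟨e, he⟩ y
        simp only at hxy
        rw [hxy] at h1
        have h3 : rs n x = rs n y := rs_eq.2 (h1.symm.trans h2)
        rw [h3] at hxy
        exact (hk1 _).inj hxy
    · simp only [he, dite_false]
      exact Good.id
  · intro e y
    by_cases he : e < n + 1
    · simp only [he, dite_true]
      exact hpres ⟨e, he⟩ y
    · simp only [he, dite_false]
      exact Agree.refl _ _
  · intro e he
    have : ¬ e < n + 1 := by omega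
    simp only [this, dite_false]
    rfl
  · intro y hy m hm
    have h1 := hk3 y (fun a => agree_ext.2 (hy a)) m hm
    have h2 : (fun a : Nd n => k a (y a)) = fun a : Nd n =>
        (if h : (a.1 : ℕ) < n + 1 then k (⟨a.1, h⟩, rs n (y a)) (y a) else y a) := by
      funext a
      rw [dif_pos a.1.isLt, hy a]
    rw [h2] at h1
    exact h1

/-- members of the subgroup generated by a set, as finite integer combinations -/
theorem exists_comb {s : Set (ℕ → ℤ)} {g : ℕ → ℤ} (hg : g ∈ AddSubgroup.closure s) :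
    ∃ (F : Finset (ℕ → ℤ)) (c : (ℕ → ℤ) → ℤ), (F : Set (ℕ → ℤ)) ⊆ s ∧ ∑ v ∈ F, c v • v = g := by
  have h1 : g ∈ Submodule.span ℤ s := by
    rw [← Submodule.mem_toAddSubgroup, Submodule.span_int_eq_addSubgroupClosure]
    exact hg
  obtain ⟨c, F, hF, _, hs⟩ := Submodule.mem_span_iff_exists_finset_subset.1 h1
  exact ⟨F, c, hF, hs⟩

include hq hU in
theorem succFusion (hcov : ∀ n (S : Set (ℕ → ℤ)), S.Finite →
      S ⊆ AddSubgroup.closure (emb '' ⋃ e, range (q e)) → ∃ i, S ⊆ U n i) :
    ∃ h : ℕ → C → C, (∀ e, Good (h e)) ∧ (∀ e, Pres e (h e)) ∧ ∃ φ : ℕ → ℕ,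
      ∀ g ∈ AddSubgroup.closure (emb '' ⋃ e, range (q e ∘ h e)), ∀ᶠ n in atTop, g ∈ U n (φ n) := by
  classical
  let St := {H : ℕ → C → C // ∀ e, Good (H e)}
  choose! κ φ hκ1 hκ2 hκ3 hκ4 using fun (n : ℕ) (H : St) => step hq hU hcov n H.1 H.2
  let Hs : ℕ → St := fun n => Nat.rec (motive := fun _ => St) ⟨fun _ => id, fun _ => Good.id⟩
    (fun n H => ⟨fun e => H.1 e ∘ κ n H e, fun e => (H.2 e).comp (hκ1 n H e)⟩) n
  have hs : ∀ n e, (Hs (n + 1)).1 e = (Hs n).1 e ∘ κ n (Hs n) e := fun n e => rfl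
  have hid : ∀ n e, n ≤ e → (Hs n).1 e = id := by
    intro n e hn
    induction n with
    | zero => rfl
    | succ n ih => rw [hs, ih (by omega), hκ3 n (Hs n) e (by omega)]; rfl
  have hf : ∀ e, ∃ R : ℕ → C → C, (∀ j, Good (R j)) ∧ (∀ j, Pres (e + j) (R j)) ∧
      ∀ j, R j = κ (e + j) (Hs (e + j)) e ∘ R (j + 1) := fun e =>
    fusion (fun j => κ (e + j) (Hs (e + j)) e) (fun j => hκ1 (e + j) (Hs (e + j)) e) e
      (fun j => hκ2 (e + j) (Hs (e + j)) e)
  choose R hR1 hR2 hR3 using hf
  have hR : ∀ e j, R e 0 = (Hs (e + j)).1 e ∘ R e j := by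
    intro e j
    induction j with
    | zero => rw [add_zero, hid e e le_rfl]; rfl
    | succ j ih => rw [← add_assoc, hs, Function.comp_assoc, ← hR3 e j, ih]
  have hRn : ∀ e n, e ≤ n → ∀ y, R e 0 y =
      (Hs n).1 e (κ n (Hs n) e (R e (n - e + 1) y)) := by
    intro e n hen y
    have h1 := hR e (n - e + 1)
    have h2 : e + (n - e + 1) = n + 1 := by omega
    rw [h2, hs] at h1
    rw [h1]
    rfl
  refine ⟨fun e => R e 0, fun e => hR1 e 0, fun e => hR2 e 0, fun n => φ n (Hs n), ?_⟩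
  intro g hg
  obtain ⟨F, c, hF, rfl⟩ := exists_comb hg
  have hloc : ∀ v : ℕ → ℤ, ∃ (e : ℕ) (y : C), v ∈ F → emb (q e (R e 0 y)) = v := by
    intro v
    by_cases hv : v ∈ F
    · obtain ⟨x, hx, hxv⟩ := hF hv
      obtain ⟨e, he⟩ := mem_iUnion.1 hx
      obtain ⟨y, hy⟩ := he
      exact ⟨e, y, fun _ => by rw [← hxv, ← hy]; rfl⟩
    · exact ⟨0, fun _ => false, fun h => absurd h hv⟩
  choose ee yy hey using hloc
  have ev1 : ∀ᶠ n in atTop, ∀ v ∈ F, ee v ≤ n := by
    rw [Filter.eventually_all_finset]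
    exact fun v _ => eventually_ge_atTop _
  have ev2 : ∀ᶠ n : ℕ in atTop, ∑ v ∈ F, |c v| ≤ (n : ℤ) := by
    filter_upwards [eventually_ge_atTop (∑ v ∈ F, |c v|).toNat] with n hn
    exact Int.toNat_le.1 hn
  have ev3 : ∀ᶠ n in atTop, ∀ v ∈ F, ∀ v' ∈ F, v ≠ v' →
      ¬ (ee v = ee v' ∧ rs n (yy v) = rs n (yy v')) := by
    rw [Filter.eventually_all_finset]
    intro v hv
    rw [Filter.eventually_all_finset]
    intro v' hv'
    by_cases hne : v = v'
    · exact Eventually.of_forall fun n h => absurd hne h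
    by_cases he : ee v = ee v'
    · have hy : yy v ≠ yy v' := by
        intro h
        apply hne
        rw [← hey v hv, ← hey v' hv', he, h]
      obtain ⟨i, hi⟩ := Function.ne_iff.1 hy
      filter_upwards [eventually_gt_atTop i] with n hn _ h
      exact hi (rs_eq.1 h.2 i hn)
    · exact Eventually.of_forall fun n _ h => he h.1
  filter_upwards [ev1, ev2, ev3] with n h1 h2 h3
  -- the nodes of the points of `F`
  let loc : (ℕ → ℤ) → Nd n := fun v => (Fin.ofNat (n + 1) (ee v), rs n (yy v))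
  have hloc1 : ∀ v ∈ F, ((loc v).1 : ℕ) = ee v := by
    intro v hv
    change ee v % (n + 1) = ee v
    exact Nat.mod_eq_of_lt (by have := h1 v hv; omega)
  have hinj : ∀ v ∈ F, ∀ v' ∈ F, loc v = loc v' → v = v' := by
    intro v hv v' hv' h
    by_contra hne
    refine h3 v hv v' hv' hne ⟨?_, congrArg Prod.snd h⟩
    rw [← hloc1 v hv, ← hloc1 v' hv', h]
  let y : Nd n → C := fun a => if h : ∃ v, v ∈ F ∧ loc v = a then
    R (ee h.choose) (n - ee h.choose + 1) (yy h.choose) else ext a.2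
  have hyv : ∀ v ∈ F, y (loc v) = R (ee v) (n - ee v + 1) (yy v) := by
    intro v hv
    have h : ∃ v', v' ∈ F ∧ loc v' = loc v := ⟨v, hv, rfl⟩
    have h4 : h.choose = v := hinj _ h.choose_spec.1 v hv h.choose_spec.2
    simp only [y, dif_pos h]
    rw [h4]
  have hy : ∀ a, rs n (y a) = a.2 := by
    intro a
    by_cases h : ∃ v, v ∈ F ∧ loc v = a
    · obtain ⟨v, hv, rfl⟩ := h
      rw [hyv v hv]
      refine rs_eq.2 ?_
      refine (hR2 (ee v) (n - ee v + 1) (yy v)).mono ?_
      have := h1 v hv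
      omega
    · simp only [y, dif_neg h]
      exact rs_ext _
  let m : Nd n → ℤ := fun a => ∑ v ∈ F, if loc v = a then c v else 0
  have hm : m ∈ coef n := by
    have h5 : ∀ a, |m a| ≤ n := by
      intro a
      calc |m a| ≤ ∑ v ∈ F, |if loc v = a then c v else 0| := Finset.abs_sum_le_sum_abs _ _
        _ ≤ ∑ v ∈ F, |c v| := by
          refine Finset.sum_le_sum fun v _ => ?_
          split_ifs
          · exact le_rfl
          · simp
        _ ≤ n := h2
    exact ⟨fun a => (abs_le.1 (h5 a)).1, fun a => (abs_le.1 (h5 a)).2⟩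
  have key := hκ4 n (Hs n) y hy m hm
  have hsum : comb q (Hs n).1 (fun a => κ n (Hs n) a.1 (y a)) m = ∑ v ∈ F, c v • v := by
    rw [comb]
    simp only [m, Finset.sum_smul]
    rw [Finset.sum_comm]
    refine Finset.sum_congr rfl fun v hv => ?_
    rw [Finset.sum_eq_single (loc v)]
    · rw [if_pos rfl, hyv v hv, hloc1 v hv, ← hRn (ee v) n (h1 v hv), hey v hv]
    · intro b _ hb
      rw [if_neg (fun h => hb h.symm), zero_smul]
    · intro h; exact absurd (Finset.mem_univ _) h
  rw [hsum] at key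
  exact key

end

end Run7.h232.BG
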